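import Pool.Agent.H953R2.QT.NotP

/-!
Over every field of characteristic two there is a smooth projective threefold, not isomorphic to
projective space, with an ample line bundle mapping non-trivially to the tangent sheaf: the quadric
`x_0^2 + x_1 x_2 + x_3 x_4 = 0` with `O(1)`, mapped to the tangent sheaf by `d/dx_0`.
-/

set_option autoImplicit false

open AlgebraicGeometry CategoryTheory
open Pool.Agent.H953R2.QT

namespace Pool.Agent.Results.MP_63fcef_ag.QuadricCharTwo

/-- For every field `k` of characteristic two there is a smooth projective variety `p : X ⟶ Spec k`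
of dimension three, with an ample line bundle `L` and a nonzero morphism from `L` to the tangent
sheaf of `X`, such that `X` is not isomorphic over `k` to projective three-space. -/
theorem result (k : Type) [Field k] [CharP k 2] :
    ∃ (X : Scheme.{0}) (p : X ⟶ Spec (CommRingCat.of k)),
      IsSmoothProjectiveVariety 3 p ∧
      (∃ L : LineBundle X, L.IsAmple ∧ ∃ φ : TangentMap p L, φ.IsNonzero) ∧
      ¬ ∃ e : X ≅ PSpace 3 k, e.hom ≫ PSpace.str 3 k = p :=
  ⟨QX k, Pool.Agent.Helper198.Sch.V.str (QJ k), variety_QX k,
    ⟨O1 k, ample_O1 k, tm k, tm_nonzero k⟩, not_iso k⟩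

end Pool.Agent.Results.MP_63fcef_ag.QuadricCharTwo
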